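import Pool.Agent.Helper40.KZ.Stmts

/-! ANZ5: the theorem for the skew product, the fibre is a torus (MP_7a8f48_an). -/

open Finset Filter MeasureTheory Topology

namespace Pool.Agent.Helper40.KZ

open Pool.Agent.Helper16.AZ (T E Op mm fc Ind)
open Pool.Agent.Helper16.BZ (co Wk EE ff EQ)
open Pool.Agent.Helper40.DZ (RI UR SK Good3)

theorem st_ANZ5 (hMPA : ST_MPA5) (hEQA : ST_EQA5) (hSTR : ST_STR5)
    (hTHB : Pool.Agent.Helper40.JZ.ST_THB4) : ST_ANZ5 := by
  intro r s θ f hθ hf hN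
  obtain ⟨hm, S, hS⟩ := hMPA r s θ f hf
  have h1 : (S : T (r + s) → T (r + s)) = SA θ f := funext hS
  have h2 := hTHB (r + s) S (by rw [h1]; exact hSTR r s θ f hθ hf hN) (by rw [h1]; exact hm)
    (by rw [h1]; exact hEQA r s θ f hθ hf hN)
  rwa [h1] at h2

end Pool.Agent.Helper40.KZ
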