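import Pool.Agent.Helper40.KZ.Stmts

/-! FIB5: Parseval's formula in the last coordinates (MP_7a8f48_an). -/

open Finset Filter MeasureTheory Topology
open scoped ComplexConjugate InnerProductSpace

namespace Pool.Agent.Helper96.K5

open Pool.Agent.Helper16.AZ (T mm)
open Pool.Agent.Helper40.JZ (U chi)
open Pool.Agent.Helper40.KZ
open UnitAddTorus (mFourier)

/-- the measurable equivalence `(x, k) ↦ sn x k` -/
noncomputable def snE (r s : ℕ) : T r × T s ≃ᵐ T (r + s) :=
  (MeasurableEquiv.sumPiEquivProdPi (fun _ : Fin r ⊕ Fin s => U)).symm.trans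
    (MeasurableEquiv.piCongrLeft (fun _ : Fin (r + s) => U) finSumFinEquiv)

theorem snE_apply (r s : ℕ) (z : T r × T s) : snE r s z = sn z.1 z.2 := by
  funext i
  refine Fin.addCases (fun j => ?_) (fun j => ?_) i
  · have h : snE r s z (finSumFinEquiv (Sum.inl j)) = z.1 j :=
      Equiv.piCongrLeft_apply_apply (fun _ : Fin (r + s) => U) finSumFinEquiv
        ((MeasurableEquiv.sumPiEquivProdPi (fun _ : Fin r ⊕ Fin s => U)).symm z) (Sum.inl j)
    rw [finSumFinEquiv_apply_left] at h
    rw [h, sn, Fin.append_left]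
  · have h : snE r s z (finSumFinEquiv (Sum.inr j)) = z.2 j :=
      Equiv.piCongrLeft_apply_apply (fun _ : Fin (r + s) => U) finSumFinEquiv
        ((MeasurableEquiv.sumPiEquivProdPi (fun _ : Fin r ⊕ Fin s => U)).symm z) (Sum.inr j)
    rw [finSumFinEquiv_apply_right] at h
    rw [h, sn, Fin.append_right]

theorem mp_snE (r s : ℕ) : MeasurePreserving (snE r s) ((mm r).prod (mm s)) (mm (r + s)) := by
  have h1 : MeasurePreserving
      (MeasurableEquiv.sumPiEquivProdPi (fun _ : Fin r ⊕ Fin s => U)).symm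
      ((mm r).prod (mm s))
      (Measure.pi fun _ : Fin r ⊕ Fin s => (AddCircle.haarAddCircle : Measure U)) :=
    measurePreserving_sumPiEquivProdPi_symm
      (fun _ : Fin r ⊕ Fin s => (AddCircle.haarAddCircle : Measure U))
  have h2 : MeasurePreserving
      (MeasurableEquiv.piCongrLeft (fun _ : Fin (r + s) => U) finSumFinEquiv)
      (Measure.pi fun _ : Fin r ⊕ Fin s => (AddCircle.haarAddCircle : Measure U)) (mm (r + s)) :=
    measurePreserving_piCongrLeft
      (fun _ : Fin (r + s) => (AddCircle.haarAddCircle : Measure U)) finSumFinEquiv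
  exact h2.comp h1

theorem mp_sn (r s : ℕ) : MeasurePreserving (fun z : T r × T s => sn z.1 z.2)
    ((mm r).prod (mm s)) (mm (r + s)) := by
  have h := mp_snE r s
  have h2 : (snE r s : T r × T s → T (r + s)) = fun z => sn z.1 z.2 := funext (snE_apply r s)
  rwa [h2] at h

/-- Parseval on the torus. -/
theorem parseval {s : ℕ} {g : T s → ℂ} (hg : MemLp g 2 (mm s)) :
    HasSum (fun a : Fin s → ℤ => ‖∫ k, mFourier (-a) k * g k ∂(mm s)‖ ^ 2)
      (∫ k, ‖g k‖ ^ 2 ∂(mm s)) := by
  have h := UnitAddTorus.hasSum_sq_mFourierCoeff (d := Fin s) (hg.toLp g)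
  have h1 : ∀ a : Fin s → ℤ, UnitAddTorus.mFourierCoeff (hg.toLp g : T s → ℂ) a =
      ∫ k, mFourier (-a) k * g k ∂(mm s) := by
    intro a
    show (∫ k, mFourier (-a) k • (hg.toLp g : T s → ℂ) k ∂(mm s)) = _
    refine integral_congr_ae ?_
    filter_upwards [hg.coeFn_toLp] with k hk
    rw [hk, smul_eq_mul]
  have h2 : (∫ k, ‖(hg.toLp g : T s → ℂ) k‖ ^ 2 ∂(mm s)) = ∫ k, ‖g k‖ ^ 2 ∂(mm s) := by
    refine integral_congr_ae ?_
    filter_upwards [hg.coeFn_toLp] with k hk
    rw [hk]
  have h3 : (fun a : Fin s → ℤ => ‖∫ k, mFourier (-a) k * g k ∂(mm s)‖ ^ 2) =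
      fun a : Fin s → ℤ => ‖UnitAddTorus.mFourierCoeff (hg.toLp g : T s → ℂ) a‖ ^ 2 := by
    funext a
    rw [h1 a]
  rw [← h2, h3]
  exact h

/-- the characters of the torus -/
theorem mf_eq {s : ℕ} (a : Fin s → ℤ) (k : T s) :
    (mFourier a k : ℂ) = ((AddCircle.toCircle (chi a k) : Circle) : ℂ) := by
  show (∏ i, (fourier (a i) (k i) : ℂ)) = _
  unfold chi
  have h : ∀ S : Finset (Fin s), (∏ i ∈ S, (fourier (a i) (k i) : ℂ)) =
      ((AddCircle.toCircle (∑ i ∈ S, a i • k i) : Circle) : ℂ) := by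
    intro S
    classical
    induction S using Finset.induction_on with
    | empty => simp
    | insert i S hi ih =>
      rw [prod_insert hi, sum_insert hi, AddCircle.toCircle_add, Circle.coe_mul, ih,
        fourier_apply]
  exact h univ

theorem chi_neg {s : ℕ} (a : Fin s → ℤ) (k : T s) : chi (-a) k = -chi a k := by
  simp [chi]

theorem chi_sub {s : ℕ} (a : Fin s → ℤ) (k k' : T s) :
    chi a (k - k') = chi a k - chi a k' := by
  simp [chi, smul_sub, sum_sub_distrib]

end Pool.Agent.Helper96.K5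

namespace Pool.Agent.Helper40.KZ

open Pool.Agent.Helper16.AZ (T mm)
open Pool.Agent.Helper40.JZ (U chi)
open Pool.Agent.Helper96.K5
open UnitAddTorus (mFourier)

theorem st_FIB5 : ST_FIB5 := by
  intro r s
  refine ⟨mp_sn r s, ?_⟩
  intro G hG
  -- the function on the product
  have hmp := mp_sn r s
  have hF : MemLp (fun z : T r × T s => G (sn z.1 z.2)) 2 ((mm r).prod (mm s)) :=
    hG.comp_measurePreserving hmp
  have hFsq : Integrable (fun z : T r × T s => ‖G (sn z.1 z.2)‖ ^ 2) ((mm r).prod (mm s)) :=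
    hF.integrable_norm_pow (by norm_num)
  have hFi : Integrable (fun z : T r × T s => G (sn z.1 z.2)) ((mm r).prod (mm s)) :=
    hF.integrable (by norm_num)
  have htot : ∫ x, ∫ k, ‖G (sn x k)‖ ^ 2 ∂(mm s) ∂(mm r) =
      ∫ y, ‖G y‖ ^ 2 ∂(mm (r + s)) := by
    rw [← integral_prod _ hFsq]
    have h := (mp_snE r s).integral_comp' (g := fun y => ‖G y‖ ^ 2)
    rw [← h]
    apply integral_congr_ae
    exact Eventually.of_forall fun z => by simp only [snE_apply]
  have hslice : ∀ᵐ x ∂(mm r), MemLp (fun k => G (sn x k)) 2 (mm s) := by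
    filter_upwards [hFsq.prod_right_ae, hF.aestronglyMeasurable.prodMk_left] with x hx hx2
    exact (memLp_two_iff_integrable_sq_norm hx2).2 hx
  have hpars : ∀ᵐ x ∂(mm r), HasSum (fun a : Fin s → ℤ => ‖fib G a x‖ ^ 2)
      (∫ k, ‖G (sn x k)‖ ^ 2 ∂(mm s)) := by
    filter_upwards [hslice] with x hx
    exact parseval hx
  have hdom : Integrable (fun x => ∫ k, ‖G (sn x k)‖ ^ 2 ∂(mm s)) (mm r) :=
    hFsq.integral_prod_left
  have hmeas : ∀ a : Fin s → ℤ, AEStronglyMeasurable (fib G a) (mm r) := by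
    intro a
    have h1 : AEStronglyMeasurable (fun z : T r × T s => (mFourier (-a) z.2 : ℂ) *
        G (sn z.1 z.2)) ((mm r).prod (mm s)) := by
      refine AEStronglyMeasurable.mul ?_ hF.aestronglyMeasurable
      exact ((mFourier (-a)).continuous.comp continuous_snd).aestronglyMeasurable
    exact h1.integral_prod_right'
  have hle : ∀ a : Fin s → ℤ, ∀ᵐ x ∂(mm r), ‖fib G a x‖ ^ 2 ≤
      ∫ k, ‖G (sn x k)‖ ^ 2 ∂(mm s) := by
    intro a
    filter_upwards [hpars] with x hx
    exact le_hasSum hx a fun b _ => by positivity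
  have hint : ∀ a : Fin s → ℤ, Integrable (fun x => ‖fib G a x‖ ^ 2) (mm r) := by
    intro a
    refine hdom.mono' ((hmeas a).norm.pow 2) ?_
    filter_upwards [hle a] with x hx
    rw [Real.norm_of_nonneg (by positivity)]
    exact hx
  have hL : ∀ a : Fin s → ℤ, MemLp (fib G a) 2 (mm r) := fun a =>
    (memLp_two_iff_integrable_sq_norm (hmeas a)).2 (hint a)
  refine ⟨hL, ?_, ?_, ?_⟩
  · have hsum : Summable fun a : Fin s → ℤ => ∫ x, ‖(‖fib G a x‖ ^ 2 : ℝ)‖ ∂(mm r) := by
      refine summable_of_sum_le (c := ∫ y, ‖G y‖ ^ 2 ∂(mm (r + s))) (fun a => by positivity) ?_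
      intro S
      rw [← integral_finsetSum S fun a _ => (hint a).norm, ← htot]
      refine integral_mono_ae (integrable_finsetSum S fun a _ => (hint a).norm) hdom ?_
      filter_upwards [hpars] with x hx
      have h2 : ∑ a ∈ S, ‖(‖fib G a x‖ ^ 2 : ℝ)‖ = ∑ a ∈ S, ‖fib G a x‖ ^ 2 :=
        Finset.sum_congr rfl fun a _ => Real.norm_of_nonneg (by positivity)
      show ∑ a ∈ S, ‖(‖fib G a x‖ ^ 2 : ℝ)‖ ≤ _
      rw [h2]
      exact sum_le_hasSum S (fun b _ => by positivity) hx
    have h := hasSum_integral_of_summable_integral_norm hint hsum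
    have e : ∫ x, ∑' a : Fin s → ℤ, ‖fib G a x‖ ^ 2 ∂(mm r) =
        ∫ y, ‖G y‖ ^ 2 ∂(mm (r + s)) := by
      rw [← htot]
      apply integral_congr_ae
      filter_upwards [hpars] with x hx
      exact hx.tsum_eq
    rw [e] at h
    exact h
  · have h := (mp_snE r s).integral_comp' (g := G)
    rw [← h]
    have e : ∫ z, G (snE r s z) ∂((mm r).prod (mm s)) =
        ∫ z, G (sn z.1 z.2) ∂((mm r).prod (mm s)) := by
      apply integral_congr_ae
      exact Eventually.of_forall fun z => by simp only [snE_apply]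
    rw [e, integral_prod _ hFi]
    apply integral_congr_ae
    refine Eventually.of_forall fun x => ?_
    show ∫ k, G (sn x k) ∂(mm s) = ∫ k, mFourier (-0) k * G (sn x k) ∂(mm s)
    apply integral_congr_ae
    refine Eventually.of_forall fun k => ?_
    show G (sn x k) = mFourier (-0) k * G (sn x k)
    rw [neg_zero, UnitAddTorus.mFourier_zero, ContinuousMap.one_apply, one_mul]
  · intro θ f _ a
    refine Eventually.of_forall fun x => ?_
    have h1 : fib (fun y => G (SA θ f y)) a x =
        ∫ k, mFourier (-a) ((k + f x) - f x) * G (sn (x + θ) (k + f x)) ∂(mm s) := by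
      apply integral_congr_ae
      refine Eventually.of_forall fun k => ?_
      show mFourier (-a) k * G (SA θ f (sn x k)) =
        mFourier (-a) ((k + f x) - f x) * G (sn (x + θ) (k + f x))
      rw [add_sub_cancel_right, SA_sn]
    rw [h1, integral_add_right_eq_self
      (fun k => (mFourier (-a) (k - f x) : ℂ) * G (sn (x + θ) k)) (f x)]
    show _ = fourier 1 (fa f a x) * ∫ k, mFourier (-a) k * G (sn (x + θ) k) ∂(mm s)
    rw [← integral_const_mul]
    apply integral_congr_ae
    refine Eventually.of_forall fun k => ?_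
    show mFourier (-a) (k - f x) * G (sn (x + θ) k) =
      fourier 1 (fa f a x) * (mFourier (-a) k * G (sn (x + θ) k))
    have h3 : (mFourier (-a) (k - f x) : ℂ) = fourier 1 (fa f a x) * mFourier (-a) k := by
      rw [mf_eq, mf_eq, fourier_apply, one_smul, ← Circle.coe_mul, ← AddCircle.toCircle_add]
      congr 2
      rw [chi_sub, chi_neg, chi_neg, fa]
      abel
    rw [h3, mul_assoc]

end Pool.Agent.Helper40.KZ
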