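import Pool.Agent.Helper40.KZ.Stmts

/-! HEL: intersections of `q`-local subgroups (MP_7a8f48_an). -/

open Finset

namespace Pool.Agent.Helper96.K5

open Pool.Agent.Helper40.KZ

/-- more than `D` vectors in `ℤ ^ D` satisfy a relation with coprime coefficients -/
theorem prim_rel {D : ℕ} {ι : Type} [DecidableEq ι] (J : Finset ι) (v : ι → Fin D → ℤ)
    (hJ : D < J.card) :
    ∃ c : ι → ℤ, J.gcd c = 1 ∧ ∑ j ∈ J, c j • v j = 0 := by
  have h1 : ¬ LinearIndependent ℤ (fun j : J => v j) := by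
    intro h
    have h2 := h.fintype_card_le_finrank
    rw [Module.finrank_fin_fun, Fintype.card_coe] at h2
    omega
  rw [Fintype.not_linearIndependent_iff] at h1
  obtain ⟨g, hg, i₀, hi₀⟩ := h1
  have hne : J.Nonempty := ⟨i₀, i₀.2⟩
  set G : ι → ℤ := fun i => if h : i ∈ J then g ⟨i, h⟩ else 0 with hG
  have hGi : G (i₀ : ι) = g i₀ := by simp [hG]
  obtain ⟨c, hc, hc1⟩ := Finset.extract_gcd G hne
  have hd : J.gcd G ≠ 0 := by
    intro h0
    rw [Finset.gcd_eq_zero_iff] at h0
    exact hi₀ (hGi ▸ h0 i₀ i₀.2)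
  refine ⟨c, hc1, ?_⟩
  have h3 : ∑ j ∈ J, G j • v j = 0 := by
    rw [← hg, ← Finset.sum_coe_sort J]
    exact sum_congr rfl fun j _ => by simp [hG]
  have h4 : J.gcd G • ∑ j ∈ J, c j • v j = 0 := by
    rw [← h3, smul_sum]
    exact sum_congr rfl fun j hj => by rw [hc j hj, mul_smul]
  exact (smul_eq_zero.1 h4).resolve_left hd

/-- coordinates with respect to generators -/
theorem exists_coord {D : ℕ} {Γ : Type} [AddCommGroup Γ] {gen : Fin D → Γ}
    (hgen : AddSubgroup.closure (Set.range gen) = ⊤) (u : Γ) :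
    ∃ v : Fin D → ℤ, ∑ i, v i • gen i = u := by
  have h1 : u ∈ Submodule.span ℤ (Set.range gen) := by
    rw [← Submodule.mem_toAddSubgroup, Submodule.span_int_eq_addSubgroupClosure, hgen]
    trivial
  exact (Submodule.mem_span_range_iff_exists_fun ℤ).1 h1

end Pool.Agent.Helper96.K5

namespace Pool.Agent.Helper40.KZ

open Pool.Agent.Helper96.K5

theorem st_HEL : ST_HEL := by
  classical
  intro D q Γ _ gen ι J Δ hq hgen hloc
  -- a subset with the least number of elements
  have hex : ∃ n : ℕ, ∃ J' ⊆ J, J'.card = n ∧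
      ∀ u : Γ, (∀ i ∈ J', u ∈ Δ i) → ∀ i ∈ J, u ∈ Δ i := ⟨_, J, Subset.rfl, rfl, fun _ h => h⟩
  obtain ⟨J', hJJ, hcard, hJ'⟩ := Nat.find_spec hex
  refine ⟨J', hJJ, ?_, hJ'⟩
  by_contra hD
  push Not at hD
  have hmin : ∀ j ∈ J', ∃ u : Γ, (∀ i ∈ J', i ≠ j → u ∈ Δ i) ∧ u ∉ Δ j := by
    intro j hj
    by_contra hno
    push Not at hno
    have h1 : (J'.erase j).card < Nat.find hex := by
      rw [← hcard]
      exact card_erase_lt_of_mem hj
    refine Nat.find_min hex h1 ⟨J'.erase j, (erase_subset _ _).trans hJJ, rfl, ?_⟩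
    intro u hu
    refine hJ' u fun i hi => ?_
    have h2 : u ∈ Δ j := hno u fun i hi hij => hu i (mem_erase.2 ⟨hij, hi⟩)
    by_cases hij : i = j
    · rw [hij]
      exact h2
    · exact hu i (mem_erase.2 ⟨hij, hi⟩)
  choose! u hu hu' using hmin
  have hv : ∀ j, ∃ v : Fin D → ℤ, ∑ i, v i • gen i = u j := fun j => exists_coord hgen (u j)
  choose v hv using hv
  obtain ⟨c, hc1, hc⟩ := prim_rel J' v hD
  have hrel : ∑ j ∈ J', c j • u j = 0 := by
    have h1 : ∑ i, (∑ j ∈ J', c j • v j) i • gen i = 0 := by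
      rw [hc]
      simp
    rw [← h1]
    simp only [Finset.sum_apply, Pi.smul_apply, sum_smul]
    rw [sum_comm]
    refine sum_congr rfl fun j _ => ?_
    rw [← hv j, smul_sum]
    exact sum_congr rfl fun i _ => by rw [smul_eq_mul, mul_smul]
  -- all coefficients are divisible by `q`
  have hdvd : ∀ j ∈ J', (q : ℤ) ∣ c j := by
    intro j hj
    by_contra hn
    have h1 : c j • u j ∈ Δ j := by
      have h2 : c j • u j = -∑ i ∈ J'.erase j, c i • u i := by
        rw [eq_neg_iff_add_eq_zero, add_sum_erase J' (fun i => c i • u i) hj]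
        exact hrel
      rw [h2]
      refine (Δ j).neg_mem (sum_mem fun i hi => (Δ j).zsmul_mem ?_ _)
      rw [mem_erase] at hi
      exact hu i hi.2 j hj hi.1.symm
    have h3 : (c j).natAbs • u j ∈ Δ j := by
      rcases Int.natAbs_eq (c j) with h | h
      · rw [← natCast_zsmul, ← h]
        exact h1
      · have h4 : -(c j • u j) ∈ Δ j := (Δ j).neg_mem h1
        rw [← neg_smul] at h4
        have h5 : ((c j).natAbs : ℤ) = -c j := by omega
        rw [← natCast_zsmul, h5]
        exact h4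
    have h6 : Nat.Coprime (c j).natAbs q := by
      rw [Nat.coprime_comm, Nat.Prime.coprime_iff_not_dvd hq]
      intro h7
      exact hn (Int.natCast_dvd.2 h7)
    refine hu' j hj ?_
    rw [← hloc j (hJJ hj)]
    exact ⟨_, h6, h3⟩
  have h8 : (q : ℤ) ∣ J'.gcd c := Finset.dvd_gcd hdvd
  rw [hc1] at h8
  exact hq.one_lt.ne' (by exact_mod_cast Int.eq_one_of_dvd_one (by positivity) h8)

end Pool.Agent.Helper40.KZ
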