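import Pool.Agent.Helper40.KZ.Stmts
import Pool.Agent.Helper96.JZ.NTF

/-! NTF5: elementary properties of the masses, the fibre is a torus (MP_7a8f48_an). -/

open Finset Filter MeasureTheory Topology
open scoped ComplexConjugate InnerProductSpace

namespace Pool.Agent.Helper96.K5

open Pool.Agent.Helper16.AZ (T mm)
open Pool.Agent.Helper40.JZ (U cs tor Lift pj ms chi)
open Pool.Agent.Helper40.KZ
open Pool.Agent.Helper96.JZ (norm_four norm_integral_sq_le abs_contr pj_congr ms_congr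
  integral_pj memLp_pj ms_nonneg ms_le pj_sub ms_inv)
open UnitAddTorus (mFourier)

variable {r s : ℕ}

theorem norm_mf (n : Fin s → ℤ) (k : T s) : ‖(mFourier n k : ℂ)‖ = 1 := by
  show ‖(∏ i, (fourier (n i) (k i) : ℂ))‖ = 1
  rw [norm_prod]
  exact Finset.prod_eq_one fun i _ => norm_four _ _

/-! ### the coefficients -/

theorem fib_sub (hF : ST_FIB5) {G G' : T (r + s) → ℂ} (hG : MemLp G 2 (mm (r + s)))
    (hG' : MemLp G' 2 (mm (r + s))) (a : Fin s → ℤ) :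
    ∀ᵐ x ∂(mm r), fib (fun y => G y - G' y) a x = fib G a x - fib G' a x := by
  have hmp := (hF r s).1
  have hint : ∀ H : T (r + s) → ℂ, MemLp H 2 (mm (r + s)) → ∀ᵐ x ∂(mm r),
      Integrable (fun k => (mFourier (-a) k : ℂ) * H (sn x k)) (mm s) := by
    intro H hH
    have h1 : MemLp (fun z : T r × T s => H (sn z.1 z.2)) 2 ((mm r).prod (mm s)) :=
      hH.comp_measurePreserving hmp
    have h2 : MemLp (fun z : T r × T s => (mFourier (-a) z.2 : ℂ) * H (sn z.1 z.2)) 2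
        ((mm r).prod (mm s)) := by
      refine h1.of_le ?_ (Eventually.of_forall fun z => ?_)
      · refine AEStronglyMeasurable.mul ?_ h1.aestronglyMeasurable
        exact ((mFourier (-a)).continuous.comp continuous_snd).aestronglyMeasurable
      · rw [norm_mul, norm_mf, one_mul]
    have h3 : Integrable (fun z : T r × T s => (mFourier (-a) z.2 : ℂ) * H (sn z.1 z.2))
        ((mm r).prod (mm s)) := h2.integrable (by norm_num)
    exact h3.prod_right_ae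
  filter_upwards [hint G hG, hint G' hG'] with x h1 h2
  unfold fib
  rw [← integral_sub h1 h2]
  apply integral_congr_ae
  refine Eventually.of_forall fun k => ?_
  show (mFourier (-a) k : ℂ) * (G (sn x k) - G' (sn x k)) =
    mFourier (-a) k * G (sn x k) - mFourier (-a) k * G' (sn x k)
  ring

variable {q : ℕ} {θ : T r} {f : T r → T s} {t : TY r s}

/-- the components of a function for a type -/
noncomputable def vv {r s : ℕ} (q : ℕ) (t : TY r s) (G : T (r + s) → ℂ) (a : t.1) : T r → ℂ :=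
  pj q (t.2 (a : Fin s → ℤ)) 1 (fib G (a : Fin s → ℤ))

theorem memLp_vv (hF : ST_FIB5) (hO : OK θ f q t) {G : T (r + s) → ℂ}
    (hG : MemLp G 2 (mm (r + s))) (a : t.1) : MemLp (vv q t G a) 2 (mm r) :=
  memLp_pj 1 (hO.1 a a.2).1 (((hF r s).2 G hG).1 _)

theorem vv_sub (hF : ST_FIB5) {G G' : T (r + s) → ℂ} (hG : MemLp G 2 (mm (r + s)))
    (hG' : MemLp G' 2 (mm (r + s))) (a : t.1) :
    ∀ᵐ x ∂(mm r), vv q t (fun y => G y - G' y) a x = vv q t G a x - vv q t G' a x := by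
  filter_upwards [pj_congr (q := q) (D := t.2 (a : Fin s → ℤ)) (j := 1)
    (fib_sub hF hG hG' (a : Fin s → ℤ))] with x hx
  show pj q (t.2 (a : Fin s → ℤ)) 1 (fib (fun y => G y - G' y) (a : Fin s → ℤ)) x =
    pj q (t.2 (a : Fin s → ℤ)) 1 (fib G (a : Fin s → ℤ)) x -
    pj q (t.2 (a : Fin s → ℤ)) 1 (fib G' (a : Fin s → ℤ)) x
  rw [hx, pj_sub]

/-- the lift of the trivial character vanishes -/
theorem lift_zero (hO : OK θ f q t) {σ : T r} (hσ : σ ∈ tor r q) :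
    ∀ᵐ x ∂(mm r), t.2 0 σ x = 0 := by
  filter_upwards [hO.2.1 0 t.1.zero_mem 0 t.1.zero_mem σ hσ] with x hx
  rw [add_zero] at hx
  exact left_eq_add.1 hx

theorem integral_vv (hF : ST_FIB5) (hq : 1 ≤ q) (hc : (tor r q).card = q ^ r)
    (hO : OK θ f q t) {G : T (r + s) → ℂ} (hG : MemLp G 2 (mm (r + s))) :
    ∫ x, vv q t G 0 x ∂(mm r) = ∫ y, G y ∂(mm (r + s)) := by
  obtain ⟨hf, _, h0, _⟩ := (hF r s).2 G hG
  have hi : Integrable (fib G 0) (mm r) := (hf 0).integrable (by norm_num)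
  rw [h0, ← integral_pj hq hc (fun _ _ => 0) hi]
  apply integral_congr_ae
  have h1 : ∀ᵐ x ∂(mm r), ∀ σ ∈ tor r q, t.2 0 σ x = 0 := by
    rw [Filter.eventually_all_finset]
    exact fun σ hσ => lift_zero hO hσ
  filter_upwards [h1] with x hx
  show pj q (t.2 ((0 : t.1) : Fin s → ℤ)) 1 (fib G ((0 : t.1) : Fin s → ℤ)) x =
    pj q (fun _ _ => 0) 0 (fib G 0) x
  rw [ZeroMemClass.coe_zero, pj, pj]
  congr 1
  refine sum_congr rfl fun σ hσ => ?_
  rw [hx σ hσ]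
  simp

/-- the sum of the square norms -/
theorem sum_vv (hF : ST_FIB5) (hq : 1 ≤ q) (hc : (tor r q).card = q ^ r) (hO : OK θ f q t)
    {G : T (r + s) → ℂ} (hG : MemLp G 2 (mm (r + s))) :
    (Summable fun a : t.1 => ∫ x, ‖vv q t G a x‖ ^ 2 ∂(mm r)) ∧
    NT q t G = ∑' a : t.1, ∫ x, ‖vv q t G a x‖ ^ 2 ∂(mm r) ∧
    NT q t G ≤ ∫ y, ‖G y‖ ^ 2 ∂(mm (r + s)) := by
  obtain ⟨hf, hs, _, _⟩ := (hF r s).2 G hG
  have hinj : Function.Injective fun a : t.1 => (a : Fin s → ℤ) := Subtype.val_injective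
  have hsj : Summable fun a : t.1 => ∫ x, ‖fib G (a : Fin s → ℤ) x‖ ^ 2 ∂(mm r) :=
    hs.summable.comp_injective hinj
  have hle : ∀ a : t.1, ms q (t.2 (a : Fin s → ℤ)) 1 (fib G (a : Fin s → ℤ)) ≤
      ∫ x, ‖fib G (a : Fin s → ℤ) x‖ ^ 2 ∂(mm r) := fun a =>
    ms_le hq hc 1 (hO.1 a a.2).1 (hf _)
  have hsm : Summable fun a : t.1 => ms q (t.2 (a : Fin s → ℤ)) 1 (fib G (a : Fin s → ℤ)) :=
    Summable.of_nonneg_of_le (fun a => ms_nonneg _ _ _ _) hle hsj
  refine ⟨hsm, rfl, ?_⟩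
  show ∑' a : t.1, ms q (t.2 (a : Fin s → ℤ)) 1 (fib G (a : Fin s → ℤ)) ≤ _
  refine (hsm.tsum_le_tsum hle hsj).trans ?_
  rw [← hs.tsum_eq]
  exact tsum_comp_le_tsum_of_inj hs.summable
    (fun a => integral_nonneg fun x => by positivity) hinj

theorem NT_inv (hF : ST_FIB5) (hO : OK θ f q t) (hfm : Measurable f) {G : T (r + s) → ℂ}
    (hG : MemLp G 2 (mm (r + s))) : NT q t (fun y => G (SA θ f y)) = NT q t G := by
  obtain ⟨_, _, _, h⟩ := (hF r s).2 G hG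
  have h1 := h θ f hfm
  show ∑' a : t.1, ms q (t.2 (a : Fin s → ℤ)) 1
      (fib (fun y => G (SA θ f y)) (a : Fin s → ℤ)) =
    ∑' a : t.1, ms q (t.2 (a : Fin s → ℤ)) 1 (fib G (a : Fin s → ℤ))
  refine tsum_congr fun a => ?_
  rw [ms_congr (h1 (a : Fin s → ℤ))]
  have h2 := ms_inv (j := 1) (g := fib G (a : Fin s → ℤ)) (hO.1 a a.2)
  rw [one_mul] at h2
  exact h2

end Pool.Agent.Helper96.K5

namespace Pool.Agent.Helper40.KZ

open Pool.Agent.Helper16.AZ (T mm)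
open Pool.Agent.Helper96.JZ (norm_integral_sq_le abs_contr)
open Pool.Agent.Helper96.K5

theorem st_NTF5 (tr : Pool.Agent.Helper40.JZ.ST_TOR) (_ : Pool.Agent.Helper40.JZ.ST_MSF)
    (hF : ST_FIB5) : ST_NTF5 := by
  classical
  intro r s θ f q t G G' hq hfm hO hG hG'
  have hc : (Pool.Agent.Helper40.JZ.tor r q).card = q ^ r := (tr r q hq).2.1
  obtain ⟨s1, e1, l1⟩ := sum_vv hF hq hc hO hG
  obtain ⟨s2, e2, _⟩ := sum_vv hF hq hc hO hG'
  obtain ⟨s3, e3, l3⟩ := sum_vv hF hq hc hO (hG.sub hG')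
  have i1 : ∫ x, vv q t G 0 x ∂(mm r) = ∫ y, G y ∂(mm (r + s)) := integral_vv hF hq hc hO hG
  have i2 : ∫ x, vv q t G' 0 x ∂(mm r) = ∫ y, G' y ∂(mm (r + s)) :=
    integral_vv hF hq hc hO hG'
  refine ⟨?_, l1, s1, NT_inv hF hO hfm hG, ?_⟩
  · rw [e1, ← i1]
    refine (norm_integral_sq_le (memLp_vv hF hO hG 0)).trans ?_
    exact s1.le_tsum 0 fun j _ => integral_nonneg fun x => by positivity
  · have h := abs_contr (μ := mm r) (0 : t.1) (memLp_vv hF hO hG) (memLp_vv hF hO hG')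
      (memLp_vv hF hO (hG.sub hG')) s1 s2 s3 (fun j => vv_sub hF hG hG' j)
    rw [← e1, ← e2, ← e3, i1, i2] at h
    exact h.trans (add_le_add le_rfl (Real.sqrt_le_sqrt l3))

end Pool.Agent.Helper40.KZ
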