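import Pool.Agent.Helper96.K5.NTF5

/-! QLU5: all masses for `q → ∞`, the fibre is a torus (MP_7a8f48_an). -/

open Finset Filter MeasureTheory Topology
open scoped ComplexConjugate

namespace Pool.Agent.Helper96.K5

open Pool.Agent.Helper16.AZ (T mm Ind)
open Pool.Agent.Helper40.JZ (U cs tor Lift pj ms chi)
open Pool.Agent.Helper40.KZ

/-- the sum over a finite set -/
theorem fin_bound {α : Type} [DecidableEq α] (B A : Finset α) (z : α) (b t : α → ℝ)
    (M₀ η δ : ℝ) (hM : 0 ≤ M₀) (hη : 0 ≤ η)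
    (hB : ∀ J : Finset α, Disjoint J B → ∑ n ∈ J, b n ≤ δ) (h0 : z ∈ A → t z ≤ M₀)
    (h1 : ∀ j ∈ A, j ≠ z → j ∈ B → t j ≤ η) (h2 : ∀ j ∈ A, t j ≤ b j) :
    ∑ j ∈ A, t j ≤ M₀ + B.card * η + δ := by
  classical
  rw [← sum_filter_add_sum_filter_not A (fun j => j ∈ B)]
  have k1 : ∑ j ∈ A with j ∈ B, t j ≤ M₀ + B.card * η := by
    have k3 : ∀ j ∈ A.filter (fun j => j ∈ B), t j ≤ (if j = z then M₀ else 0) + η := by
      intro j hj
      rw [mem_filter] at hj
      split_ifs with hj0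
      · have := h0 (hj0 ▸ hj.1)
        rw [hj0]
        linarith
      · rw [zero_add]
        exact h1 j hj.1 hj0 hj.2
    refine (sum_le_sum k3).trans ?_
    rw [sum_add_distrib, sum_const, nsmul_eq_mul]
    refine add_le_add ?_ (mul_le_mul_of_nonneg_right ?_ hη)
    · rw [sum_ite_eq']
      split_ifs
      · exact le_rfl
      · exact hM
    · have : (A.filter (fun j => j ∈ B)).card ≤ B.card :=
        card_le_card fun j hj => (mem_filter.1 hj).2
      exact_mod_cast this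
  have k2 : ∑ j ∈ A with ¬ j ∈ B, t j ≤ δ := by
    refine (sum_le_sum fun j hj => h2 j (mem_filter.1 hj).1).trans ?_
    refine hB _ ?_
    rw [Finset.disjoint_left]
    intro n hn hn'
    exact (mem_filter.1 hn).2 hn'
  linarith

/-- the mass of the trivial character -/
theorem ms_type_zero {r s q : ℕ} {θ : T r} {f : T r → T s} {t : TY r s} (hO : OK θ f q t)
    (g : T r → ℂ) : ms q (t.2 0) 1 g = ms q (fun _ _ => 0) 0 g := by
  unfold ms
  apply integral_congr_ae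
  have h1 : ∀ᵐ x ∂(mm r), ∀ σ ∈ tor r q, t.2 0 σ x = 0 := by
    rw [Filter.eventually_all_finset]
    exact fun σ hσ => lift_zero hO hσ
  filter_upwards [h1] with x hx
  have h2 : pj q (t.2 0) 1 g x = pj q (fun _ _ => 0) 0 g x := by
    rw [pj, pj]
    congr 1
    refine sum_congr rfl fun σ hσ => ?_
    rw [hx σ hσ]
    simp
  rw [h2]

end Pool.Agent.Helper96.K5

namespace Pool.Agent.Helper40.KZ

open Pool.Agent.Helper16.AZ (T mm Ind)
open Pool.Agent.Helper40.JZ (U cs tor Lift pj ms chi)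
open Pool.Agent.Helper96.K5

theorem st_QLU5 (hMSF : Pool.Agent.Helper40.JZ.ST_MSF) (hFIB : ST_FIB5) (hNTF : ST_NTF5)
    (hQHS : ST_QHS5) (hQBZ : Pool.Agent.Helper40.JZ.ST_QBZ) : ST_QLU5 := by
  classical
  intro r s θ f hθ hf G ε hG hε
  obtain ⟨-, hF⟩ := hFIB r s
  obtain ⟨hFm, hFs, hF0, -⟩ := hF G hG
  set b : (Fin s → ℤ) → ℝ := fun a => ∫ x, ‖fib G a x‖ ^ 2 ∂(mm r) with hb
  obtain ⟨B₀, hB₀⟩ := summable_iff_vanishing_norm.1 hFs.summable (ε / 3) (by positivity)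
  set B : Finset (Fin s → ℤ) := insert 0 B₀ with hBdef
  have hB : ∀ J : Finset (Fin s → ℤ), Disjoint J B → ∑ n ∈ J, b n ≤ ε / 3 := by
    intro J hJ
    have h1 := hB₀ J (hJ.mono_right (subset_insert _ _))
    exact (le_abs_self _).trans h1.le
  -- the base
  have hQ := hQBZ r (fib G 0) (hFm 0)
  rw [← hF0] at hQ
  have hQ1 : ∀ᶠ q : ℕ in atTop, ms q (fun _ _ => 0) 0 (fib G 0) <
      ‖∫ y, G y ∂(mm (r + s))‖ ^ 2 + ε / 3 :=
    hQ.eventually_lt_const (by linarith)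
  obtain ⟨q₁, hq₁⟩ := eventually_atTop.1 hQ1
  -- the finitely many coefficients
  set η : ℝ := ε / 3 / (B.card + 1) with hη
  have hη0 : 0 < η := by positivity
  have hQ2 : ∀ a : Fin s → ℤ, ∃ q₀ : ℕ, a ≠ 0 → ∀ q ≥ q₀, q.Prime → ∀ t : TY r s,
      OK θ f q t → a ∈ t.1 → ms q (t.2 a) 1 (fib G a) ≤ η := by
    intro a
    by_cases ha : a = 0
    · exact ⟨0, fun h => absurd ha h⟩
    by_cases hK : Kc θ (fa f a)
    · refine ⟨∑ i, (a i).natAbs + 1, fun _ q hq _ t ht hat => ?_⟩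
      exfalso
      apply ha
      funext i
      have h1 : (q : ℤ) ∣ a i := ht.2.2 a hat hK i
      have h2 : (a i).natAbs ≤ ∑ j, (a j).natAbs :=
        single_le_sum (f := fun j => (a j).natAbs) (fun j _ => Nat.zero_le _) (mem_univ i)
      have h3 : q ∣ (a i).natAbs := Int.natCast_dvd.1 h1
      exact Int.natAbs_eq_zero.1 (Nat.eq_zero_of_dvd_of_lt h3 (by omega))
    · obtain ⟨q₀, h⟩ := hQHS r θ (fa f a) hθ (continuous_fa hf a) hK (fib G a) η (hFm a) hη0
      exact ⟨q₀, fun _ q hq hqp t ht hat => h q hq hqp _ (ht.1 a hat)⟩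
  choose Q hQ3 using hQ2
  refine ⟨max q₁ (B.sup Q), fun q hq hqp t ht => ?_⟩
  have hq1 : q₁ ≤ q := (le_max_left _ _).trans hq
  have hq2 : ∀ a ∈ B, Q a ≤ q := fun a ha =>
    (Finset.le_sup (f := Q) ha).trans ((le_max_right _ _).trans hq)
  have hsum := (hNTF r s θ f q t G G hqp.one_lt.le hf.measurable ht hG hG).2.2.1
  change ∑' a : t.1, ms q (t.2 (a : Fin s → ℤ)) 1 (fib G (a : Fin s → ℤ)) ≤ _
  refine hsum.tsum_le_of_sum_le fun J => ?_
  have hmem : ∀ a ∈ J.map (Function.Embedding.subtype fun a => a ∈ t.1), a ∈ t.1 := by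
    intro a ha
    rw [Finset.mem_map] at ha
    obtain ⟨c, _, rfl⟩ := ha
    exact c.2
  have h1 := fin_bound B (J.map (Function.Embedding.subtype fun a => a ∈ t.1)) 0 b
    (fun a => ms q (t.2 a) 1 (fib G a))
    (‖∫ y, G y ∂(mm (r + s))‖ ^ 2 + ε / 3) η (ε / 3) (by positivity) hη0.le hB (by
      intro _
      show ms q (t.2 0) 1 (fib G 0) ≤ _
      rw [ms_type_zero ht]
      exact (hq₁ q hq1).le) (by
      intro a haA ha haB
      exact hQ3 a ha q (hq2 a haB) hqp t ht (hmem a haA)) (by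
      intro a haA
      exact (hMSF r q (t.2 a) 1 (fib G a) (fib G a) hqp.one_lt.le (ht.1 a (hmem a haA)).1
        (hFm _) (hFm _)).2.2.1)
  rw [sum_map] at h1
  have h2 : (B.card : ℝ) * η ≤ ε / 3 := by
    rw [hη, mul_div_assoc', div_le_iff₀ (by positivity)]
    nlinarith [hε]
  have h3 : ∑ a ∈ J, ms q (t.2 (a : Fin s → ℤ)) 1 (fib G (a : Fin s → ℤ)) ≤
      ‖∫ y, G y ∂(mm (r + s))‖ ^ 2 + ε / 3 + B.card * η + ε / 3 := h1
  linarith

end Pool.Agent.Helper40.KZ
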