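import Pool.Agent.Helper40.KZ.Stmts

/-!
STR5: the sums of the inner products over a block of primes for the skew product, the fibre is a
torus (MP_7a8f48_an).
-/

open Finset Filter MeasureTheory Topology
open scoped ComplexConjugate InnerProductSpace

namespace Pool.Agent.Helper96.K5

open Pool.Agent.Helper16.AZ (T mm)
open Pool.Agent.Helper40.KZ

/-- the trivial type -/
def ty0 {r s : ℕ} : TY r s := (⊥, fun _ _ _ => 0)

theorem OK_ty0 {r s : ℕ} (θ : T r) (f : T r → T s) (q : ℕ) : OK θ f q (ty0 : TY r s) := by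
  have hz : ∀ a ∈ (ty0 : TY r s).1, a = 0 := fun a ha => AddSubgroup.mem_bot.1 ha
  refine ⟨?_, ?_, ?_⟩
  · intro a ha
    rw [hz a ha]
    have h0 : ∀ x, fa f 0 x = 0 := fun x => by simp [fa, Pool.Agent.Helper40.JZ.chi]
    exact ⟨fun σ _ => measurable_const, fun σ _ σ' _ => Eventually.of_forall fun x => by
      simp [ty0], fun σ _ => Eventually.of_forall fun x => by simp [ty0, h0]⟩
  · intro a _ b _ σ _
    exact Eventually.of_forall fun x => by simp [ty0]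
  · intro a ha _ i
    rw [hz a ha]
    exact dvd_zero _

end Pool.Agent.Helper96.K5

namespace Pool.Agent.Helper40.KZ

open Pool.Agent.Helper16.AZ (T E Op mm fc Ind)
open Pool.Agent.Helper16.BZ (co Wk EE ff EQ)
open Pool.Agent.Helper16.MD (MS PB Am RW Rich)
open Pool.Agent.Helper40.DZ (RI UR SK Good3 EE_RI)
open Pool.Agent.Helper96.K5 (ty0 OK_ty0)

/-- expansion of the square -/
theorem str5_sq (Q : Finset ℕ) (z : ℕ → ℂ) :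
    ‖∑ p ∈ Q, z p‖ ^ 2 =
      ∑ p ∈ Q, ‖z p‖ ^ 2 + ∑ p ∈ Q, ∑ q ∈ Q.erase p, (z p * conj (z q)).re := by
  have h1 : ‖∑ p ∈ Q, z p‖ ^ 2 = ((∑ p ∈ Q, z p) * conj (∑ p ∈ Q, z p)).re := by
    rw [Complex.mul_conj, Complex.ofReal_re, Complex.normSq_eq_norm_sq]
  have h2 : (∑ p ∈ Q, z p) * conj (∑ p ∈ Q, z p) = ∑ p ∈ Q, ∑ q ∈ Q, z p * conj (z q) := by
    rw [map_sum, Finset.sum_mul_sum]
  rw [h1, h2, Complex.re_sum, ← Finset.sum_add_distrib]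
  refine Finset.sum_congr rfl fun p hp => ?_
  rw [Complex.re_sum, ← Finset.add_sum_erase Q _ hp]
  congr 1
  rw [Complex.mul_conj, Complex.ofReal_re, Complex.normSq_eq_norm_sq]

/-- exchange of the two primes -/
theorem str5_swap (Q : Finset ℕ) (g : ℕ → ℕ → ℝ) :
    ∑ p ∈ Q, ∑ q ∈ Q.erase p, g p q = ∑ p ∈ Q, ∑ q ∈ Q.erase p, g q p := by
  refine Finset.sum_comm' fun p q => ?_
  simp only [Finset.mem_erase]
  tauto

/-- the sums of the correlations for the skew product -/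
theorem str5_par (hNTF : ST_NTF5) (hRES : ST_RES5) (hEQA : ST_EQA5)
    (hEQR : Pool.Agent.Helper40.DZ.ST_EQR) {r s : ℕ} (θ : T r) (f : T r → T s) (hθ : Ind θ)
    (hf : Continuous f) (hN : N0 θ f) (x : T (r + s)) :
    ∃ t1 t2 : ℕ → ℕ → TY r s, (∀ p q, OK θ f q (t1 p q)) ∧ (∀ p q, OK θ f q (t2 p q)) ∧
    ∀ (Q : Finset ℕ) (F : ℕ → T (r + s) → ℂ), (∀ p ∈ Q, p.Prime) → (∀ p ∈ Q, RI (F p)) →
    ∀ ε : ℝ, 0 < ε → ∀ᶠ M : ℕ in atTop,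
    ∑ y ∈ Icc 1 M, ‖∑ p ∈ Q, F p ((SA θ f)^[p * y] x)‖ ^ 2 ≤
      ((∑ p ∈ Q, ‖∫ y, F p y ∂(mm (r + s))‖) ^ 2 +
        ∑ p ∈ Q, ∫ y, ‖F p y‖ ^ 2 ∂(mm (r + s)) +
        1 / 2 * ∑ p ∈ Q, ∑ q ∈ Q.erase p,
          (NT q (t1 p q) (F p) - ‖∫ y, F p y ∂(mm (r + s))‖ ^ 2) +
        1 / 2 * ∑ p ∈ Q, ∑ q ∈ Q.erase p,
          (NT q (t2 p q) (F p) - ‖∫ y, F p y ∂(mm (r + s))‖ ^ 2) + ε) * M := by
  have h0 : ∀ p q : ℕ, ∃ t t' : TY r s, OK θ f q t ∧ OK θ f p t' ∧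
      (p.Prime → q.Prime → p ≠ q → ∀ G G' : T (r + s) → ℂ, RI G → RI G' →
      ∀ ε : ℝ, 0 < ε → ∀ᶠ M : ℕ in atTop,
      ‖∑ n ∈ Icc 1 M, G ((SA θ f)^[p * n] x) * conj (G' ((SA θ f)^[q * n] x))‖ ≤
        (‖∫ y, G y ∂(mm (r + s))‖ * ‖∫ y, G' y ∂(mm (r + s))‖ +
          Real.sqrt (NT q t G - ‖∫ y, G y ∂(mm (r + s))‖ ^ 2) *
          Real.sqrt (NT p t' G' - ‖∫ y, G' y ∂(mm (r + s))‖ ^ 2) + ε) * M) := by
    intro p q
    by_cases hpq : p.Prime ∧ q.Prime ∧ p ≠ q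
    · obtain ⟨t, t', a1, a2, a4⟩ := hRES r s θ f hθ hf hN p q x hpq.1 hpq.2.1 hpq.2.2
      exact ⟨t, t', a1, a2, fun _ _ _ => a4⟩
    · exact ⟨ty0, ty0, OK_ty0 θ f q, OK_ty0 θ f p,
        fun b1 b2 b3 => absurd ⟨b1, b2, b3⟩ hpq⟩
  choose t t' k1 k2 k4 using h0
  refine ⟨t, fun p q => t' q p, k1, fun p q => k2 q p, ?_⟩
  intro Q F hQ hF ε hε
  have hE := hEQA r s θ f hθ hf hN
  obtain ⟨n, hn⟩ : ∃ n : ℝ, n = (Q.card : ℝ) := ⟨_, rfl⟩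
  have hn0 : 0 ≤ n := by
    rw [hn]
    exact Nat.cast_nonneg _
  obtain ⟨e, he⟩ : ∃ e : ℝ, e = ε / (n + n ^ 2 + 1) := ⟨_, rfl⟩
  have hden : 0 < n + n ^ 2 + 1 := by positivity
  have he0 : 0 < e := by
    rw [he]
    exact div_pos hε hden
  have hne : n * e + n ^ 2 * e ≤ ε := by
    have h1 : (n + n ^ 2 + 1) * e = ε := by
      rw [he]
      field_simp
    nlinarith
  -- the diagonal
  have hdiag : ∀ p ∈ Q, ∀ᶠ M : ℕ in atTop, ∑ y ∈ Icc 1 M, ‖F p ((SA θ f)^[p * y] x)‖ ^ 2 ≤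
      (∫ y, ‖F p y‖ ^ 2 ∂(mm (r + s)) + e) * M := by
    intro p hp
    have hRI : RI (fun y => ((‖F p y‖ ^ 2 : ℝ) : ℂ)) := by
      have h1 := (hF p hp).norm.cont_comp (g := fun t : ℝ => ((t ^ 2 : ℝ) : ℂ))
        (Complex.continuous_ofReal.comp (continuous_pow 2))
      exact h1
    have g1 := (hEQR (r + s) (SA θ f) hE _ hRI p x (hQ p hp).one_lt.le).2
    have g2 : ∫ y, ((‖F p y‖ ^ 2 : ℝ) : ℂ) ∂(mm (r + s)) =
        ((∫ y, ‖F p y‖ ^ 2 ∂(mm (r + s)) : ℝ) : ℂ) := integral_ofReal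
    rw [g2] at g1
    have g3 := (Complex.continuous_re.tendsto _).comp g1
    have g4 : ∀ M : ℕ, (Complex.re ∘ fun N : ℕ => (∑ n ∈ Icc 1 N,
        ((‖F p ((SA θ f)^[p * n] x)‖ ^ 2 : ℝ) : ℂ)) / (N : ℂ)) M =
        (∑ y ∈ Icc 1 M, ‖F p ((SA θ f)^[p * y] x)‖ ^ 2) / M := by
      intro M
      simp only [Function.comp_apply]
      rw [← Complex.ofReal_sum, ← Complex.ofReal_natCast, ← Complex.ofReal_div, Complex.ofReal_re]
    have g5 : Tendsto (fun M : ℕ => (∑ y ∈ Icc 1 M, ‖F p ((SA θ f)^[p * y] x)‖ ^ 2) / (M : ℝ))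
        atTop (𝓝 (∫ y, ‖F p y‖ ^ 2 ∂(mm (r + s)))) := by
      rw [Complex.ofReal_re] at g3
      exact g3.congr g4
    filter_upwards [g5.eventually (gt_mem_nhds (lt_add_of_pos_right _ he0)),
      eventually_gt_atTop 0] with M hM hM0
    have hM0' : (0 : ℝ) < M := by exact_mod_cast hM0
    rw [div_lt_iff₀ hM0'] at hM
    exact hM.le
  have hdiag' : ∀ᶠ M : ℕ in atTop, ∀ p ∈ Q, ∑ y ∈ Icc 1 M,
      ‖F p ((SA θ f)^[p * y] x)‖ ^ 2 ≤ (∫ y, ‖F p y‖ ^ 2 ∂(mm (r + s)) + e) * M := by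
    rw [Filter.eventually_all_finset]
    exact hdiag
  -- the other terms
  have hoff : ∀ᶠ M : ℕ in atTop, ∀ p ∈ Q, ∀ q ∈ Q.erase p,
      ‖∑ n ∈ Icc 1 M, F p ((SA θ f)^[p * n] x) * conj (F q ((SA θ f)^[q * n] x))‖ ≤
        (‖∫ y, F p y ∂(mm (r + s))‖ * ‖∫ y, F q y ∂(mm (r + s))‖ +
          Real.sqrt (NT q (t p q) (F p) - ‖∫ y, F p y ∂(mm (r + s))‖ ^ 2) *
          Real.sqrt (NT p (t' p q) (F q) - ‖∫ y, F q y ∂(mm (r + s))‖ ^ 2) + e) * M := by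
    rw [Filter.eventually_all_finset]
    intro p hp
    rw [Filter.eventually_all_finset]
    intro q hq
    have hq' := Finset.mem_erase.1 hq
    exact k4 p q (hQ p hp) (hQ q hq'.2) (Ne.symm hq'.1) (F p) (F q) (hF p hp) (hF q hq'.2) e he0
  filter_upwards [hdiag', hoff] with M a1 a2
  have hM0 : (0 : ℝ) ≤ M := Nat.cast_nonneg M
  -- the expansion
  have b1 : ∑ y ∈ Icc 1 M, ‖∑ p ∈ Q, F p ((SA θ f)^[p * y] x)‖ ^ 2 =
      ∑ p ∈ Q, ∑ y ∈ Icc 1 M, ‖F p ((SA θ f)^[p * y] x)‖ ^ 2 +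
      ∑ p ∈ Q, ∑ q ∈ Q.erase p, (∑ n ∈ Icc 1 M,
        F p ((SA θ f)^[p * n] x) * conj (F q ((SA θ f)^[q * n] x))).re := by
    have c1 : ∀ y : ℕ, ‖∑ p ∈ Q, F p ((SA θ f)^[p * y] x)‖ ^ 2 =
        ∑ p ∈ Q, ‖F p ((SA θ f)^[p * y] x)‖ ^ 2 + ∑ p ∈ Q, ∑ q ∈ Q.erase p,
        (F p ((SA θ f)^[p * y] x) * conj (F q ((SA θ f)^[q * y] x))).re :=
      fun y => str5_sq Q fun p => F p ((SA θ f)^[p * y] x)
    simp only [c1, Complex.re_sum]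
    rw [Finset.sum_add_distrib]
    congr 1
    · exact Finset.sum_comm
    · rw [Finset.sum_comm]
      exact Finset.sum_congr rfl fun p _ => Finset.sum_comm
  have b2 : ∑ p ∈ Q, ∑ y ∈ Icc 1 M, ‖F p ((SA θ f)^[p * y] x)‖ ^ 2 ≤
      (∑ p ∈ Q, ∫ y, ‖F p y‖ ^ 2 ∂(mm (r + s)) + n * e) * M := by
    refine (Finset.sum_le_sum a1).trans (le_of_eq ?_)
    rw [← Finset.sum_mul, Finset.sum_add_distrib, Finset.sum_const, nsmul_eq_mul, ← hn]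
  -- abbreviations
  obtain ⟨I, hI⟩ : ∃ I : ℕ → ℝ, I = fun p => ‖∫ y, F p y ∂(mm (r + s))‖ := ⟨_, rfl⟩
  have hI0 : ∀ p, 0 ≤ I p := fun p => by
    rw [hI]
    exact norm_nonneg _
  obtain ⟨A, hA⟩ : ∃ A : ℕ → ℕ → ℝ, A = fun p q => NT q (t p q) (F p) - I p ^ 2 := ⟨_, rfl⟩
  obtain ⟨B, hB⟩ : ∃ B : ℕ → ℕ → ℝ, B = fun p q => NT p (t' p q) (F q) - I q ^ 2 := ⟨_, rfl⟩
  have hA0 : ∀ p ∈ Q, ∀ q ∈ Q.erase p, 0 ≤ A p q := by
    intro p hp q hq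
    have hq' := Finset.mem_erase.1 hq
    have h1 := (hNTF r s θ f q (t p q) (F p) (F p) (hQ q hq'.2).one_lt.le hf.measurable (k1 p q)
      ((hF p hp).memLp 2) ((hF p hp).memLp 2)).1
    rw [hA]
    simp only [hI]
    linarith
  have hB0 : ∀ p ∈ Q, ∀ q ∈ Q.erase p, 0 ≤ B p q := by
    intro p hp q hq
    have hq' := Finset.mem_erase.1 hq
    have h1 := (hNTF r s θ f p (t' p q) (F q) (F q) (hQ p hp).one_lt.le hf.measurable (k2 p q)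
      ((hF q hq'.2).memLp 2) ((hF q hq'.2).memLp 2)).1
    rw [hB]
    simp only [hI]
    linarith
  have b3 : ∀ p ∈ Q, ∀ q ∈ Q.erase p, (∑ n ∈ Icc 1 M,
        F p ((SA θ f)^[p * n] x) * conj (F q ((SA θ f)^[q * n] x))).re ≤
      (I p * I q + (1 / 2 * A p q + 1 / 2 * B p q) + e) * M := by
    intro p hp q hq
    refine (Complex.re_le_norm _).trans ((a2 p hp q hq).trans ?_)
    refine mul_le_mul_of_nonneg_right ?_ hM0
    have c1 : Real.sqrt (A p q) * Real.sqrt (B p q) ≤ 1 / 2 * A p q + 1 / 2 * B p q := by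
      have d1 := Real.sq_sqrt (hA0 p hp q hq)
      have d2 := Real.sq_sqrt (hB0 p hp q hq)
      have d3 := sq_nonneg (Real.sqrt (A p q) - Real.sqrt (B p q))
      nlinarith
    have c2 : A p q = NT q (t p q) (F p) - ‖∫ y, F p y ∂(mm (r + s))‖ ^ 2 := by
      simp only [hA, hI]
    have c3 : B p q = NT p (t' p q) (F q) - ‖∫ y, F q y ∂(mm (r + s))‖ ^ 2 := by
      simp only [hB, hI]
    rw [← c2, ← c3]
    have c4 : ‖∫ y, F p y ∂(mm (r + s))‖ * ‖∫ y, F q y ∂(mm (r + s))‖ = I p * I q := by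
      simp only [hI]
    rw [c4]
    linarith
  have b4 : ∑ p ∈ Q, ∑ q ∈ Q.erase p, (∑ n ∈ Icc 1 M,
        F p ((SA θ f)^[p * n] x) * conj (F q ((SA θ f)^[q * n] x))).re ≤
      ((∑ p ∈ Q, I p) ^ 2 + 1 / 2 * ∑ p ∈ Q, ∑ q ∈ Q.erase p, A p q +
        1 / 2 * ∑ p ∈ Q, ∑ q ∈ Q.erase p, B p q + n ^ 2 * e) * M := by
    refine (Finset.sum_le_sum fun p hp => Finset.sum_le_sum fun q hq => b3 p hp q hq).trans ?_
    simp only [← Finset.sum_mul]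
    refine mul_le_mul_of_nonneg_right ?_ hM0
    simp only [Finset.sum_add_distrib, ← Finset.mul_sum]
    have c1 : ∑ p ∈ Q, I p * ∑ q ∈ Q.erase p, I q ≤ (∑ p ∈ Q, I p) ^ 2 := by
      rw [sq, Finset.sum_mul]
      refine Finset.sum_le_sum fun p _ => mul_le_mul_of_nonneg_left ?_ (hI0 p)
      exact Finset.sum_le_sum_of_subset_of_nonneg (Finset.erase_subset _ _) fun q _ _ => hI0 q
    have c2 : ∑ p ∈ Q, ∑ _q ∈ Q.erase p, e ≤ n ^ 2 * e := by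
      have d1 : ∀ p ∈ Q, ∑ _q ∈ Q.erase p, e ≤ n * e := by
        intro p _
        rw [Finset.sum_const, nsmul_eq_mul]
        refine mul_le_mul_of_nonneg_right ?_ he0.le
        rw [hn]
        exact_mod_cast Finset.card_le_card (Finset.erase_subset _ _)
      refine (Finset.sum_le_sum d1).trans (le_of_eq ?_)
      rw [Finset.sum_const, nsmul_eq_mul, ← hn]
      ring
    linarith
  have b5 : ∑ p ∈ Q, ∑ q ∈ Q.erase p, B p q = ∑ p ∈ Q, ∑ q ∈ Q.erase p,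
      (NT q (t' q p) (F p) - ‖∫ y, F p y ∂(mm (r + s))‖ ^ 2) := by
    rw [str5_swap]
    simp only [hB, hI]
  have b6 : ∑ p ∈ Q, ∑ q ∈ Q.erase p, A p q = ∑ p ∈ Q, ∑ q ∈ Q.erase p,
      (NT q (t p q) (F p) - ‖∫ y, F p y ∂(mm (r + s))‖ ^ 2) := by
    simp only [hA, hI]
  have b7 : ∑ p ∈ Q, I p = ∑ p ∈ Q, ‖∫ y, F p y ∂(mm (r + s))‖ := by
    simp only [hI]
  rw [← b5, ← b6, ← b7, b1]
  refine (add_le_add b2 b4).trans ?_
  rw [← add_mul]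
  refine mul_le_mul_of_nonneg_right ?_ hM0
  linarith

/-- the mean square of the integrals along multiples of `H₀` -/
theorem str5_block (hSKN : ST_SKN5) (hKER : Pool.Agent.Helper40.DZ.ST_KER) {r s d : ℕ}
    (θ : T r) (f : T r → T s) (hf : Continuous f) (φ : T (r + s) → Op d)
    (c : T (r + s) → E d) (hφ : UR φ) (hc : Continuous c) (p H t : ℕ) :
    ∑ h ∈ range (H * t), ∑ h' ∈ range (H * t),
      ‖∫ x, EE (SA θ f) φ c (p * h) (p * h') x ∂(mm (r + s))‖ ^ 2 ≤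
    (t : ℝ) ^ 2 * ∑ h ∈ range H, ∑ h' ∈ range H,
      ‖∫ x, EE (SA θ f) φ c (p * h) (p * h') x ∂(mm (r + s))‖ ^ 2 :=
  (hKER _ (hSKN r s θ f hf 1 ty0 d φ c le_rfl (OK_ty0 θ f 1) hφ hc).2).2 p H t

theorem st_STR5 (hNTF : ST_NTF5) (hSKN : ST_SKN5) (_hLMF : Pool.Agent.Helper40.JZ.ST_LMF) (hMPA : ST_MPA5)
    (hRES : ST_RES5) (hSTA : ST_STA5) (hEQA : ST_EQA5)
    (hKER : Pool.Agent.Helper40.DZ.ST_KER) (hEQR : Pool.Agent.Helper40.DZ.ST_EQR) :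
    ST_STR5 := by
  intro r s θ f hθ hf hN d φ c x κ H₀ hφ hc hκ hH₀ hyp
  have hS := continuous_SA θ hf
  have hm := (hMPA r s θ f hf).1
  obtain ⟨t1, t2, o1, o2, hpar⟩ := str5_par hNTF hRES hEQA hEQR θ f hθ hf hN x
  filter_upwards [hyp, hSTA r s θ f hθ hf d φ c hφ hc (κ / 2) (by positivity)] with i h1 h2
  intro hrich
  have hyp1 := h1 hrich
  obtain ⟨u₁, hu₁⟩ := h2 hrich t1 o1
  obtain ⟨u₂, hu₂⟩ := h2 hrich t2 o2
  obtain ⟨b, hb⟩ : ∃ b : ℝ, b = ((PB 1 i).card : ℝ) := ⟨_, rfl⟩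
  have hb0 : 0 < b := by
    rw [hb]
    have h1 : 0 < (PB 1 i).card := by
      rcases Nat.eq_zero_or_pos (PB 1 i).card with h0 | h0
      · exfalso
        unfold Rich at hrich
        rw [h0, mul_zero] at hrich
        exact absurd hrich (by simp)
      · exact h0
    exact_mod_cast h1
  rw [← hb] at hyp1
  -- the number of shifts
  obtain ⟨t, ht⟩ : ∃ t : ℕ, t = u₁ + u₂ + 1 := ⟨_, rfl⟩
  obtain ⟨H, hH⟩ : ∃ H : ℕ, H = H₀ * t := ⟨_, rfl⟩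
  have hH1 : 1 ≤ H := by
    rw [hH, ht]
    exact Nat.mul_pos hH₀ (Nat.succ_pos _)
  have hHt : t ≤ H := by
    rw [hH]
    calc t = 1 * t := (one_mul _).symm
      _ ≤ H₀ * t := Nat.mul_le_mul_right _ hH₀
  refine ⟨H, hH1, ?_⟩
  intro Q hQ
  have hHpos : (0 : ℝ) < (H : ℝ) := by exact_mod_cast hH1
  have h3 := hu₁ H (by omega)
  have h3' := hu₂ H (by omega)
  rw [← hb] at h3 h3'
  -- the first term
  have h4 : ∑ p ∈ PB 1 i, ∑ h ∈ range H, ∑ h' ∈ range H,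
      ‖∫ x, EE (SA θ f) φ c (p * h) (p * h') x ∂(mm (r + s))‖ ^ 2 ≤ κ * b * (H : ℝ) ^ 2 := by
    have h5 : ∑ p ∈ PB 1 i, ∑ h ∈ range H, ∑ h' ∈ range H,
        ‖∫ x, EE (SA θ f) φ c (p * h) (p * h') x ∂(mm (r + s))‖ ^ 2 ≤
        ∑ p ∈ PB 1 i, (t : ℝ) ^ 2 * ∑ h ∈ range H₀, ∑ h' ∈ range H₀,
        ‖∫ x, EE (SA θ f) φ c (p * h) (p * h') x ∂(mm (r + s))‖ ^ 2 := by
      refine Finset.sum_le_sum fun p _ => ?_
      rw [hH]
      exact str5_block hSKN hKER θ f hf φ c hφ hc p H₀ t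
    refine h5.trans ?_
    rw [← Finset.mul_sum]
    refine (mul_le_mul_of_nonneg_left hyp1 (by positivity)).trans (le_of_eq ?_)
    rw [hH]
    push_cast
    ring
  -- all pairs of shifts
  obtain ⟨ε, hε⟩ : ∃ ε : ℝ, ε = κ / 2 * b ^ 2 := ⟨_, rfl⟩
  have hε0 : 0 < ε := by
    rw [hε]
    positivity
  have hprB : ∀ p ∈ PB 1 i, p.Prime := fun p hp => by
    unfold PB at hp
    rw [Finset.mem_filter] at hp
    exact hp.2.1
  have hpr : ∀ p ∈ Q, p.Prime := fun p hp => hprB p (hQ hp)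
  have hall : ∀ᶠ M : ℕ in atTop, ∀ h ∈ range H, ∀ h' ∈ range H,
      ∑ y ∈ Icc 1 M, ‖∑ p ∈ Q, EE (SA θ f) φ c (p * h) (p * h') ((SA θ f)^[p * y] x)‖ ^ 2 ≤
      ((∑ p ∈ Q, ‖∫ y, EE (SA θ f) φ c (p * h) (p * h') y ∂(mm (r + s))‖) ^ 2 +
        ∑ p ∈ Q, ∫ y, ‖EE (SA θ f) φ c (p * h) (p * h') y‖ ^ 2 ∂(mm (r + s)) +
        1 / 2 * ∑ p ∈ Q, ∑ q ∈ Q.erase p,
          (NT q (t1 p q) (EE (SA θ f) φ c (p * h) (p * h')) -
            ‖∫ y, EE (SA θ f) φ c (p * h) (p * h') y ∂(mm (r + s))‖ ^ 2) +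
        1 / 2 * ∑ p ∈ Q, ∑ q ∈ Q.erase p,
          (NT q (t2 p q) (EE (SA θ f) φ c (p * h) (p * h')) -
            ‖∫ y, EE (SA θ f) φ c (p * h) (p * h') y ∂(mm (r + s))‖ ^ 2) + ε) * M := by
    rw [Filter.eventually_all_finset]
    intro h hh
    rw [Filter.eventually_all_finset]
    intro h' hh'
    exact hpar Q (fun p => EE (SA θ f) φ c (p * h) (p * h')) hpr
      (fun p _ => EE_RI hS hm hφ (RI.of_continuous hc) _ _) ε hε0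
  filter_upwards [hall] with M hM
  have hM0 : (0 : ℝ) ≤ M := Nat.cast_nonneg _
  have hqb : (Q.card : ℝ) ≤ b := by
    rw [hb]
    exact_mod_cast Finset.card_le_card hQ
  have hmq : ∀ t : ℕ → ℕ → TY r s, (∀ p q, OK θ f q (t p q)) → ∀ p q k k' : ℕ, 1 ≤ q →
      0 ≤ NT q (t p q) (EE (SA θ f) φ c k k') -
        ‖∫ y, EE (SA θ f) φ c k k' y ∂(mm (r + s))‖ ^ 2 := by
    intro t ht p q k k' hq
    have hL := (EE_RI hS hm hφ (RI.of_continuous hc) k k').memLp 2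
    have h1 := (hNTF r s θ f q (t p q) _ _ hq hf.measurable (ht p q) hL hL).1
    linarith
  -- one pair of shifts
  have hsub : ∀ t : ℕ → ℕ → TY r s, (∀ p q, OK θ f q (t p q)) → ∀ h h' : ℕ,
      ∑ p ∈ Q, ∑ q ∈ Q.erase p,
          (NT q (t p q) (EE (SA θ f) φ c (p * h) (p * h')) -
            ‖∫ y, EE (SA θ f) φ c (p * h) (p * h') y ∂(mm (r + s))‖ ^ 2) ≤
      ∑ p ∈ PB 1 i, ∑ q ∈ (PB 1 i).erase p,
          (NT q (t p q) (EE (SA θ f) φ c (p * h) (p * h')) -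
            ‖∫ y, EE (SA θ f) φ c (p * h) (p * h') y ∂(mm (r + s))‖ ^ 2) := by
    intro t ht h h'
    have hq1 : ∀ p, ∀ q ∈ (PB 1 i).erase p, 1 ≤ q := fun p q hq =>
      (hprB q (Finset.mem_of_mem_erase hq)).one_lt.le
    refine (Finset.sum_le_sum fun p _ => Finset.sum_le_sum_of_subset_of_nonneg
      (Finset.erase_subset_erase p hQ) fun q hq _ => hmq t ht p q _ _ (hq1 p q hq)).trans ?_
    exact Finset.sum_le_sum_of_subset_of_nonneg hQ fun p _ _ =>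
      Finset.sum_nonneg fun q hq => hmq t ht p q _ _ (hq1 p q hq)
  have hint : ∀ h ∈ range H, ∀ h' ∈ range H,
      ∑ y ∈ Icc 1 M, ‖∑ p ∈ Q, EE (SA θ f) φ c (p * h) (p * h') ((SA θ f)^[p * y] x)‖ ^ 2 ≤
      (b * ∑ p ∈ PB 1 i, ‖∫ y, EE (SA θ f) φ c (p * h) (p * h') y ∂(mm (r + s))‖ ^ 2 +
        1 / 2 * (∑ p ∈ PB 1 i, ∫ y, ‖EE (SA θ f) φ c (p * h) (p * h') y‖ ^ 2 ∂(mm (r + s)) +
        ∑ p ∈ PB 1 i, ∑ q ∈ (PB 1 i).erase p,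
          (NT q (t1 p q) (EE (SA θ f) φ c (p * h) (p * h')) -
            ‖∫ y, EE (SA θ f) φ c (p * h) (p * h') y ∂(mm (r + s))‖ ^ 2)) +
        1 / 2 * (∑ p ∈ PB 1 i, ∫ y, ‖EE (SA θ f) φ c (p * h) (p * h') y‖ ^ 2 ∂(mm (r + s)) +
        ∑ p ∈ PB 1 i, ∑ q ∈ (PB 1 i).erase p,
          (NT q (t2 p q) (EE (SA θ f) φ c (p * h) (p * h')) -
            ‖∫ y, EE (SA θ f) φ c (p * h) (p * h') y ∂(mm (r + s))‖ ^ 2)) +
        ε) * M := by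
    intro h hh h' hh'
    refine (hM h hh h' hh').trans ?_
    refine mul_le_mul_of_nonneg_right ?_ hM0
    have e4 : (∑ p ∈ Q, ‖∫ y, EE (SA θ f) φ c (p * h) (p * h') y ∂(mm (r + s))‖) ^ 2 ≤
        Q.card * ∑ p ∈ Q, ‖∫ y, EE (SA θ f) φ c (p * h) (p * h') y ∂(mm (r + s))‖ ^ 2 :=
      sq_sum_le_card_mul_sum_sq
    have e5 : ∑ p ∈ Q, ‖∫ y, EE (SA θ f) φ c (p * h) (p * h') y ∂(mm (r + s))‖ ^ 2 ≤
        ∑ p ∈ PB 1 i, ‖∫ y, EE (SA θ f) φ c (p * h) (p * h') y ∂(mm (r + s))‖ ^ 2 :=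
      Finset.sum_le_sum_of_subset_of_nonneg hQ fun _ _ _ => by positivity
    have e6 : (Q.card : ℝ) *
        ∑ p ∈ Q, ‖∫ y, EE (SA θ f) φ c (p * h) (p * h') y ∂(mm (r + s))‖ ^ 2 ≤
        b * ∑ p ∈ PB 1 i, ‖∫ y, EE (SA θ f) φ c (p * h) (p * h') y ∂(mm (r + s))‖ ^ 2 :=
      mul_le_mul hqb e5 (Finset.sum_nonneg fun _ _ => by positivity) hb0.le
    have e7 : ∑ p ∈ Q, ∫ y, ‖EE (SA θ f) φ c (p * h) (p * h') y‖ ^ 2 ∂(mm (r + s)) ≤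
        ∑ p ∈ PB 1 i, ∫ y, ‖EE (SA θ f) φ c (p * h) (p * h') y‖ ^ 2 ∂(mm (r + s)) :=
      Finset.sum_le_sum_of_subset_of_nonneg hQ fun _ _ _ =>
        integral_nonneg fun _ => by positivity
    have e8 := hsub t1 o1 h h'
    have e9 := hsub t2 o2 h h'
    linarith
  have hup : ∑ h ∈ range H, ∑ h' ∈ range H, ∑ y ∈ Icc 1 M,
      ‖∑ p ∈ Q, EE (SA θ f) φ c (p * h) (p * h') ((SA θ f)^[p * y] x)‖ ^ 2 ≤
      (b * (∑ p ∈ PB 1 i, ∑ h ∈ range H, ∑ h' ∈ range H,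
          ‖∫ y, EE (SA θ f) φ c (p * h) (p * h') y ∂(mm (r + s))‖ ^ 2) +
        1 / 2 * (∑ h ∈ range H, ∑ h' ∈ range H,
          (∑ p ∈ PB 1 i, ∫ y, ‖EE (SA θ f) φ c (p * h) (p * h') y‖ ^ 2 ∂(mm (r + s)) +
          ∑ p ∈ PB 1 i, ∑ q ∈ (PB 1 i).erase p,
          (NT q (t1 p q) (EE (SA θ f) φ c (p * h) (p * h')) -
            ‖∫ y, EE (SA θ f) φ c (p * h) (p * h') y ∂(mm (r + s))‖ ^ 2))) +
        1 / 2 * (∑ h ∈ range H, ∑ h' ∈ range H,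
          (∑ p ∈ PB 1 i, ∫ y, ‖EE (SA θ f) φ c (p * h) (p * h') y‖ ^ 2 ∂(mm (r + s)) +
          ∑ p ∈ PB 1 i, ∑ q ∈ (PB 1 i).erase p,
          (NT q (t2 p q) (EE (SA θ f) φ c (p * h) (p * h')) -
            ‖∫ y, EE (SA θ f) φ c (p * h) (p * h') y ∂(mm (r + s))‖ ^ 2))) +
        (H : ℝ) ^ 2 * ε) * M := by
    refine (Finset.sum_le_sum fun h hh => Finset.sum_le_sum fun h' hh' =>
      hint h hh h' hh').trans (le_of_eq ?_)
    have h3 : ∑ p ∈ PB 1 i, ∑ h ∈ range H, ∑ h' ∈ range H,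
        ‖∫ y, EE (SA θ f) φ c (p * h) (p * h') y ∂(mm (r + s))‖ ^ 2 =
        ∑ h ∈ range H, ∑ h' ∈ range H, ∑ p ∈ PB 1 i,
        ‖∫ y, EE (SA θ f) φ c (p * h) (p * h') y ∂(mm (r + s))‖ ^ 2 := by
      rw [Finset.sum_comm]
      exact Finset.sum_congr rfl fun h _ => Finset.sum_comm
    rw [h3]
    simp only [← Finset.sum_mul]
    congr 1
    have h5 : ∀ (a1 a2 a3 : ℕ → ℕ → ℝ), ∑ h ∈ range H, ∑ h' ∈ range H,
        (b * a1 h h' + 1 / 2 * a2 h h' + 1 / 2 * a3 h h' + ε) =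
        b * ∑ h ∈ range H, ∑ h' ∈ range H, a1 h h' +
        1 / 2 * ∑ h ∈ range H, ∑ h' ∈ range H, a2 h h' +
        1 / 2 * ∑ h ∈ range H, ∑ h' ∈ range H, a3 h h' + (H : ℝ) ^ 2 * ε := by
      intro a1 a2 a3
      simp only [Finset.sum_add_distrib, ← Finset.mul_sum, Finset.sum_const,
        Finset.card_range, nsmul_eq_mul]
      ring
    exact h5 _ _ _
  refine hup.trans ?_
  refine mul_le_mul_of_nonneg_right ?_ hM0
  have h5 := mul_le_mul_of_nonneg_left h4 hb0.le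
  have h6 : b * (κ * b * (H : ℝ) ^ 2) + κ / 2 * b ^ 2 * (H : ℝ) ^ 2 + (H : ℝ) ^ 2 * ε =
      2 * κ * b ^ 2 * (H : ℝ) ^ 2 := by
    rw [hε]
    ring
  rw [← hb]
  linarith

end Pool.Agent.Helper40.KZ
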